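import Pool.Agent.U681.STw.Defs

/-!
# Base change and the laws of the normalised `L`-polynomials
-/

set_option autoImplicit false

namespace Pool.Agent.U681.GF

open NumberField IsDedekindDomain Filter Topology MeasureTheory
open Pool.Agent.K4H40.ST (extend zar)
open Pool.Agent.U681.STw (cf)

/-- the coefficients `a_0, ..., a_{2g}` of `det (1 - M T)` -/
noncomputable def vec {g : ℕ} (M : GL (Fin g ⊕ Fin g) ℂ) : Fin (2 * g + 1) → ℝ := fun i => cf i M

/-- test functions: `1`-Lipschitz (for the maximum norm) with values in `[-1, 1]` -/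
def IsTest {g : ℕ} (f : (Fin (2 * g + 1) → ℝ) → ℝ) : Prop := LipschitzWith 1 f ∧ ∀ a, |f a| ≤ 1

/-- The representation `r` is connected over the extension `L` of `K`: the Zariski closure of the image
of `Gal(K̄/L)` does not become smaller if `L` is replaced by a finite extension. -/
def IsConnectedOver {K : Type} [Field K] [NumberField K] {g : ℕ}
    (r : Gal(AlgebraicClosure K/K) →* GL (Fin g ⊕ Fin g) ℂ)
    (L : IntermediateField K (AlgebraicClosure K)) : Prop :=
  ∀ L' : IntermediateField K (AlgebraicClosure K), L ≤ L' → FiniteDimensional K L' →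
    r '' (L.fixingSubgroup : Set Gal(AlgebraicClosure K/K)) ⊆
      zar (r '' (L'.fixingSubgroup : Set Gal(AlgebraicClosure K/K)))

/-- the restriction of the representation `r` of `Gal(K̄/K)` to `Gal(K̄/E)` -/
noncomputable def restr {K : Type} [Field K] [NumberField K] {g : ℕ}
    (r : Gal(AlgebraicClosure K/K) →* GL (Fin g ⊕ Fin g) ℂ)
    (E : IntermediateField K (AlgebraicClosure K)) :
    Gal(AlgebraicClosure K/E) →* GL (Fin g ⊕ Fin g) ℂ :=
  r.comp (AlgEquiv.restrictScalarsHom K)

end Pool.Agent.U681.GF
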