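import Pool.Agent.K4H40.ST.Field
import Pool.Agent.W529.ST.Wrap

/-! Primes of higher degree do not matter. -/

set_option autoImplicit false

namespace Pool.Agent.U681.GF

open NumberField IsDedekindDomain Filter Topology Pool.Agent.K4H40.ST

variable {F : Type} [Field F] [NumberField F]

theorem card_eq (N : ℕ) : Nat.card {w : HeightOneSpectrum (𝓞 F) // Ideal.absNorm w.asIdeal ≤ N} =
    (Pool.Agent.W540.BE.upto F N).card := by
  have e : {v : HeightOneSpectrum (𝓞 F) // Ideal.absNorm v.asIdeal ≤ N} ≃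
      (Pool.Agent.W540.BE.upto F N) :=
    Equiv.subtypeEquivRight fun v => Pool.Agent.W540.BE.mem_upto.symm
  rw [Nat.card_congr e, Nat.card_eq_fintype_card, Fintype.card_coe]

theorem card_ratio : Tendsto (fun N : ℕ =>
    (Nat.card {w : HeightOneSpectrum (𝓞 F) // Ideal.absNorm w.asIdeal ≤ N} : ℝ) /
      (Nat.primeCounting N : ℝ)) atTop (𝓝 1) := by
  have h1 := (Fld.card_div (K := F)).norm
  rw [norm_one] at h1
  refine h1.congr fun N => ?_
  rw [norm_div, Complex.norm_natCast, Complex.norm_natCast, card_eq]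

/-- Functions that agree at almost all primes whose norm is a prime number have close means. -/
theorem mean_dens {Z : Set (HeightOneSpectrum (𝓞 F))} (hZ : Z.Finite) {ε : ℝ} (hε : 0 < ε) :
    ∀ᶠ N : ℕ in atTop, ∀ φ ψ : HeightOneSpectrum (𝓞 F) → ℝ, (∀ v, |φ v - ψ v| ≤ 2) →
      (∀ v, v ∉ Z → (Ideal.absNorm v.asIdeal).Prime → φ v = ψ v) →
      |W529.ST.mean F φ N - W529.ST.mean F ψ N| ≤ ε := by
  classical
  -- the density of the bad primes
  have hpc : Tendsto (fun N : ℕ => (Nat.primeCounting N : ℝ)) atTop atTop :=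
    tendsto_natCast_atTop_atTop.comp Nat.tendsto_primeCounting
  have h1 := Frob.task_deg (E := F)
  have h2 : Tendsto (fun N : ℕ => (hZ.toFinset.card : ℝ) / (Nat.primeCounting N : ℝ)) atTop (𝓝 0) :=
    hpc.const_div_atTop _
  have h3 := (h2.add h1).div (card_ratio (F := F)) one_ne_zero
  rw [add_zero, zero_div] at h3
  have hε2 : (0 : ℝ) < ε / 2 := by positivity
  filter_upwards [h3.eventually_lt_const hε2, hpc.eventually_gt_atTop 0,
    (Pool.Agent.W529.ST.card_atTop F).eventually_gt_atTop 0] with N hN hpN hcN φ ψ hb heq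
  obtain ⟨t, ht, hcard, hmean⟩ := Pool.Agent.W529.ST.mean_def (F := F) (fun _ => 0) N
  simp only [Pi.div_apply] at hN
  rw [hcard] at hN hcN
  rw [← add_div, div_div_div_cancel_right₀ hpN.ne'] at hN
  rw [hmean, hmean, ← sub_div, ← Finset.sum_sub_distrib, abs_div,
    abs_of_nonneg (Nat.cast_nonneg t.card : (0 : ℝ) ≤ _), div_le_iff₀ hcN]
  rw [div_lt_iff₀ hcN] at hN
  set X : Finset (HeightOneSpectrum (𝓞 F)) :=
    t.filter fun w => ¬ (Ideal.absNorm w.asIdeal).Prime with hX
  have hXc : X.card = Nat.card {w : HeightOneSpectrum (𝓞 F) // Ideal.absNorm w.asIdeal ≤ N ∧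
      ¬ (Ideal.absNorm w.asIdeal).Prime} := by
    have e : {w : HeightOneSpectrum (𝓞 F) // Ideal.absNorm w.asIdeal ≤ N ∧
      ¬ (Ideal.absNorm w.asIdeal).Prime} ≃ X :=
      Equiv.subtypeEquivRight fun v => by rw [hX, Finset.mem_filter, ht]
    rw [Nat.card_congr e, Nat.card_eq_fintype_card, Fintype.card_coe]
  have h4 : |∑ v ∈ t, (φ v - ψ v)| ≤ 2 * (hZ.toFinset.card + X.card) := by
    refine (Finset.abs_sum_le_sum_abs _ _).trans ?_
    have h5 : ∀ v ∈ t, |φ v - ψ v| ≤ (if v ∈ hZ.toFinset then 2 else 0) +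
        (if ¬ (Ideal.absNorm v.asIdeal).Prime then 2 else 0) := by
      intro v _
      by_cases h6 : v ∈ hZ.toFinset
      · rw [if_pos h6]
        refine (hb v).trans ?_
        split_ifs <;> norm_num
      · by_cases h7 : (Ideal.absNorm v.asIdeal).Prime
        · rw [heq v (fun h => h6 (hZ.mem_toFinset.2 h)) h7, sub_self, abs_zero]
          split_ifs <;> norm_num
        · rw [if_neg h6, if_pos h7, zero_add]
          exact hb v
    refine (Finset.sum_le_sum h5).trans ?_
    rw [Finset.sum_add_distrib, ← Finset.sum_filter, ← Finset.sum_filter, Finset.sum_const,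
      Finset.sum_const, nsmul_eq_mul, nsmul_eq_mul, ← hX, mul_add, mul_comm _ (2 : ℝ),
      mul_comm _ (2 : ℝ)]
    have h6 : (t.filter fun v => v ∈ hZ.toFinset).card ≤ hZ.toFinset.card :=
      Finset.card_le_card fun v hv => (Finset.mem_filter.1 hv).2
    have h7 : ((t.filter fun v => v ∈ hZ.toFinset).card : ℝ) ≤ hZ.toFinset.card := by
      exact_mod_cast h6
    linarith
  refine h4.trans ?_
  rw [hXc]
  linarith

end Pool.Agent.U681.GF
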