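import Pool.Agent.U681.GF.Sp
import Pool.Agent.W529.ST.Wrap
import Mathlib

/-! Finite nets of test functions, limits along ultrafilters. -/

set_option autoImplicit false

namespace Pool.Agent.U681.GF

open NumberField IsDedekindDomain Filter Topology MeasureTheory

theorem exists_lim (U : Ultrafilter ℕ) {a : ℕ → ℝ} (h : ∀ N, |a N| ≤ 1) :
    ∃ α, Tendsto a U (𝓝 α) := by
  have h1 : ((U.map a : Ultrafilter ℝ) : Filter ℝ) ≤ 𝓟 (Set.Icc (-1) 1) := by
    rw [Filter.le_principal_iff]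
    change a ⁻¹' Set.Icc (-1) 1 ∈ (U : Filter ℕ)
    exact Filter.univ_mem' fun N => abs_le.1 (h N)
  obtain ⟨α, -, hα⟩ := isCompact_Icc.ultrafilter_le_nhds (U.map a) h1
  exact ⟨α, hα⟩

/-- a finite net of the test functions -/
theorem exists_net' (g : ℕ) {ε : ℝ} (hε : 0 < ε) :
    ∃ (s : Finset ((Fin (2 * g + 1) → ℝ) → ℝ)), (∀ h ∈ s, IsTest h) ∧
      ∀ f, IsTest f → ∃ h ∈ s, ∀ a ∈ Metric.closedBall (0 : Fin (2 * g + 1) → ℝ) (bd g),
        |f a - h a| ≤ ε := by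
  classical
  obtain ⟨s, h, hh, hnet⟩ := Pool.Agent.W529.ST.exists_net (Sp g) (ε := ε / 2) (by positivity)
  let P : Fin s → Prop := fun i => ∃ f : (Fin (2 * g + 1) → ℝ) → ℝ, IsTest f ∧
    ∀ x : Sp g, |f x.1 - h i x| ≤ ε / 2
  refine ⟨(Finset.univ : Finset {i // P i}).image fun i => i.2.choose, ?_, ?_⟩
  · intro f hf
    obtain ⟨i, -, rfl⟩ := Finset.mem_image.1 hf
    exact i.2.choose_spec.1
  · intro f hf
    obtain ⟨i, hi⟩ := hnet (fun a => f a.1) (test_restrict hf)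
    have hP : P i := ⟨f, hf, hi⟩
    refine ⟨hP.choose, Finset.mem_image.2 ⟨⟨i, hP⟩, Finset.mem_univ _, rfl⟩, fun a ha => ?_⟩
    have h1 := hi ⟨a, ha⟩
    have h2 := hP.choose_spec.2 ⟨a, ha⟩
    simp only at h1
    rw [abs_le] at h1 h2 ⊢
    constructor <;> linarith [h1.1, h1.2, h2.1, h2.2]

end Pool.Agent.U681.GF
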