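import Pool.Agent.U681.STw.Cf
import Pool.Agent.U681.GF.Defs
import Pool.Agent.W529.ST.Net

/-! The compact space of the coefficient vectors. -/

set_option autoImplicit false

namespace Pool.Agent.U681.GF

open Pool.Agent.U681.STw Polynomial

variable {g : ℕ}

/-- the bound for the coefficients -/
noncomputable def bd (g : ℕ) : ℝ := (2 * g).choose (2 * g / 2)

theorem cf_bound {C : Subgroup (GL (Fin g ⊕ Fin g) ℂ)}
    (hC : IsCompact (C : Set (GL (Fin g ⊕ Fin g) ℂ))) {c : GL (Fin g ⊕ Fin g) ℂ} (hc : c ∈ C)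
    (i : ℕ) : |cf i c| ≤ bd g := by
  have h1 : ∀ j, ‖c.val.charpoly.coeff j‖ ≤ bd g := by
    intro j
    have hd : c.val.charpoly.natDegree = 2 * g := by
      rw [Matrix.charpoly_natDegree_eq_dim, Fintype.card_sum, Fintype.card_fin]
      ring
    have h2 := coeff_bdd_of_roots_le (B := 1) (d := 2 * g) (RingHom.id ℂ)
      (Matrix.charpoly_monic c.val) (IsAlgClosed.splits _) hd.le (fun z hz => by
        rw [Polynomial.map_id] at hz
        exact (Pool.Agent.U187.MV.root_norm hC hc hz).le) j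
    rw [Polynomial.map_id] at h2
    refine h2.trans (le_of_eq ?_)
    unfold bd
    simp
  have h2 : c.val.charpolyRev.coeff i = c.val.charpoly.coeff
      (Polynomial.revAt c.val.charpoly.natDegree i) := by
    rw [← Matrix.reverse_charpoly, Polynomial.coeff_reverse]
  unfold cf
  refine (Complex.abs_re_le_norm _).trans ?_
  rw [h2]
  exact h1 _

/-- the space -/
abbrev Sp (g : ℕ) : Type := Metric.closedBall (0 : Fin (2 * g + 1) → ℝ) (bd g)

instance : CompactSpace (Sp g) := isCompact_iff_compactSpace.1 (isCompact_closedBall _ _)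

theorem bd_nonneg : 0 ≤ bd g := Nat.cast_nonneg _

theorem vec_mem {C : Subgroup (GL (Fin g ⊕ Fin g) ℂ)}
    (hC : IsCompact (C : Set (GL (Fin g ⊕ Fin g) ℂ))) (c : C) :
    vec (c : GL (Fin g ⊕ Fin g) ℂ) ∈ Metric.closedBall (0 : Fin (2 * g + 1) → ℝ) (bd g) := by
  rw [mem_closedBall_zero_iff, pi_norm_le_iff_of_nonneg bd_nonneg]
  intro i
  exact cf_bound hC c.2 i

/-- the point of the space -/
noncomputable def pt {C : Subgroup (GL (Fin g ⊕ Fin g) ℂ)}
    (hC : IsCompact (C : Set (GL (Fin g ⊕ Fin g) ℂ))) (c : C) : Sp g := ⟨vec c.1, vec_mem hC c⟩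

theorem test_restrict {f : (Fin (2 * g + 1) → ℝ) → ℝ} (hf : IsTest f) :
    Pool.Agent.W529.ST.Test fun a : Sp g => f a.1 := by
  refine ⟨?_, fun a => hf.2 _⟩
  have h := hf.1.comp (LipschitzWith.subtype_val (Metric.closedBall (0 : Fin (2 * g + 1) → ℝ) (bd g)))
  rw [one_mul] at h
  exact h

theorem continuous_vec : Continuous (vec (g := g)) := continuous_pi fun i => continuous_cf i

end Pool.Agent.U681.GF
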